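import Pool.Agent.Helper2.Ann.Apriori

/-!
# Growth of a polynomial bounded on `[0, 1)` at the points `coth(s)^2`

`P (coth(3s)^2) th(s)^(2n)` extends to an analytic function `gr P n` on the strip `|Im s| < π/3`; on the lines `|Im s| = π/6` one
has `coth(3s) = tanh(3t)`, `|th s| = 1`. Hence a bound `|P(tanh(t)^2)| ≤ C` for real `t` gives `|gr P n| ≤ C` on the closed strip.
-/

set_option autoImplicit false

namespace Ann

open Complex Set Filter Topology

/-- `c/(1+c)`, `c = cosh(3s)`; equals `coth(3s) th(s)` -/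
noncomputable def cth (s : ℂ) : ℂ := 1 - 1 / (2 * Complex.cosh (3 * s / 2) ^ 2)

/-- the function `P(coth(3s)^2) th(s)^(2n)`, `deg P ≤ n` -/
noncomputable def gr (P : Polynomial ℂ) (n : ℕ) (s : ℂ) : ℂ :=
  ∑ j ∈ Finset.range (n + 1), P.coeff j * cth s ^ (2 * j) * th s ^ (2 * (n - j))

lemma cth_zero : cth 0 = 1 / 2 := by
  simp only [cth, mul_zero, zero_div, Complex.cosh_zero]; norm_num

lemma cth_diff {s : ℂ} (hs : |s.im| < Real.pi / 3) : DifferentiableAt ℂ cth s := by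
  have hc := cosh_arg_ne hs
  have h0 : DifferentiableAt ℂ (fun z : ℂ => Complex.cosh (3 * z / 2)) s := by fun_prop
  have h1 : DifferentiableAt ℂ (fun z : ℂ => 2 * Complex.cosh (3 * z / 2) ^ 2) s := (h0.pow 2).const_mul 2
  exact (differentiableAt_const _).sub ((differentiableAt_const _).div h1 (by simpa using hc))

lemma norm_cosh_sq_ge {s : ℂ} (hs : |s.im| ≤ Real.pi / 6) : 1 / 2 ≤ ‖Complex.cosh (3 * s / 2)‖ ^ 2 := by
  have h2 := normSq_cosh (3 * s / 2)
  rw [arg_re, arg_im] at h2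
  have h3 := cos_sq_ge hs
  nlinarith [sq_nonneg (Real.sinh (3 * s.re / 2))]

lemma norm_cth_le {s : ℂ} (hs : |s.im| ≤ Real.pi / 6) : ‖cth s‖ ≤ 2 := by
  have h1 := norm_cosh_sq_ge hs
  have h2 : ‖1 / (2 * Complex.cosh (3 * s / 2) ^ 2)‖ ≤ 1 := by
    rw [norm_div, norm_one, norm_mul, norm_pow, Complex.norm_ofNat, div_le_one (by positivity)]
    linarith
  calc ‖cth s‖ ≤ ‖(1 : ℂ)‖ + ‖1 / (2 * Complex.cosh (3 * s / 2) ^ 2)‖ := norm_sub_le _ _
    _ ≤ 2 := by rw [norm_one]; linarith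

/-- `cth s * sinh (3s) = cosh (3s) * th s` -/
lemma cth_mul_sinh {s : ℂ} (hs : |s.im| < Real.pi / 3) :
    cth s * Complex.sinh (3 * s) = Complex.cosh (3 * s) * th s := by
  have hc := cosh_arg_ne hs
  have e : (3 * s : ℂ) = 2 * (3 * s / 2) := by ring
  have h1 : Complex.sinh (3 * s) = 2 * Complex.sinh (3 * s / 2) * Complex.cosh (3 * s / 2) := by
    conv_lhs => rw [e, Complex.sinh_two_mul]
  have h2 : Complex.cosh (3 * s) = 2 * Complex.cosh (3 * s / 2) ^ 2 - 1 := by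
    conv_lhs => rw [e, Complex.cosh_two_mul]
    have := Complex.cosh_sq (3 * s / 2)
    linear_combination -this
  rw [h1, h2, cth, th, Complex.tanh_eq_sinh_div_cosh]
  field_simp

lemma sinh_ne {z : ℂ} (h : |z.im| < Real.pi) (hz : z ≠ 0) : Complex.sinh z ≠ 0 := by
  intro h0
  have h1 := normSq_sinh z
  rw [h0, norm_zero] at h1
  have e1 : Real.sinh z.re ^ 2 = 0 := by nlinarith [sq_nonneg (Real.sinh z.re), sq_nonneg (Real.sin z.im)]
  have e2 : Real.sin z.im ^ 2 = 0 := by nlinarith [sq_nonneg (Real.sinh z.re), sq_nonneg (Real.sin z.im)]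
  have e3 : Real.sinh z.re = 0 := by simpa using e1
  rw [Real.sinh_eq_zero] at e3
  have e4 : Real.sin z.im = 0 := by simpa using e2
  have hb := abs_lt.1 h
  rw [Real.sin_eq_zero_iff_of_lt_of_lt (by linarith) (by linarith)] at e4
  exact hz (Complex.ext (by simpa using e3) (by simpa using e4))

lemma three_ne {s : ℂ} (hs : |s.im| < Real.pi / 3) (h0 : s ≠ 0) : Complex.sinh (3 * s) ≠ 0 := by
  apply sinh_ne
  · have : (3 * s).im = 3 * s.im := by simp
    rw [this, abs_mul]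
    simp only [Nat.abs_ofNat]
    linarith
  · simpa using h0

/-- the value of `gr` away from the zero of `th` -/
lemma gr_eq (P : Polynomial ℂ) {n : ℕ} (hn : P.natDegree ≤ n) {s : ℂ} (hs : |s.im| ≤ Real.pi / 6) (h0 : s ≠ 0) :
    gr P n s = P.eval ((Complex.cosh (3 * s) / Complex.sinh (3 * s)) ^ 2) * th s ^ (2 * n) := by
  have hs' : |s.im| < Real.pi / 3 := by linarith [Real.pi_pos]
  have h1 := three_ne hs' h0
  have h2 : cth s = Complex.cosh (3 * s) / Complex.sinh (3 * s) * th s := by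
    rw [div_mul_eq_mul_div, ← cth_mul_sinh hs', mul_div_cancel_right₀ _ h1]
  rw [gr, Polynomial.eval_eq_sum_range' (Nat.lt_succ_of_le hn), Finset.sum_mul]
  apply Finset.sum_congr rfl
  intro j hj
  have hj' : j ≤ n := by simpa [Nat.lt_succ_iff] using hj
  have e : 2 * n = 2 * j + 2 * (n - j) := by omega
  rw [h2, mul_pow, ← pow_mul, e, pow_add]
  ring

lemma dcc_gr (P : Polynomial ℂ) (n : ℕ) : DiffContOnCl ℂ (gr P n) So := by
  apply dcc_of_diff
  intro s hs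
  have hs' : |s.im| < Real.pi / 3 := by linarith [Real.pi_pos]
  have h1 := cth_diff hs'
  have h2 : DifferentiableAt ℂ th s := (hasDerivAt_th hs').differentiableAt
  unfold gr
  apply DifferentiableAt.fun_sum
  intro j _
  exact ((h1.pow _).const_mul _).mul (h2.pow _)

lemma gr_bdd (P : Polynomial ℂ) (n : ℕ) : ∃ C₀ : ℝ, ∀ s ∈ Sc, ‖gr P n s‖ ≤ C₀ := by
  refine ⟨∑ j ∈ Finset.range (n + 1), ‖P.coeff j‖ * 2 ^ (2 * j), fun s hs => ?_⟩
  rw [mem_Sc] at hs
  refine (norm_sum_le _ _).trans (Finset.sum_le_sum fun j _ => ?_)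
  rw [norm_mul, norm_mul, norm_pow, norm_pow]
  have h1 : ‖th s‖ ^ (2 * (n - j)) ≤ 1 := pow_le_one₀ (norm_nonneg _) (norm_th_le hs)
  have h2 : ‖cth s‖ ^ (2 * j) ≤ 2 ^ (2 * j) := pow_le_pow_left₀ (norm_nonneg _) (norm_cth_le hs) _
  have h3 : ‖P.coeff j‖ * ‖cth s‖ ^ (2 * j) ≤ ‖P.coeff j‖ * 2 ^ (2 * j) := mul_le_mul_of_nonneg_left h2 (norm_nonneg _)
  exact (mul_le_of_le_one_right (by positivity) h1).trans h3

/-- on the lines `coth(3s) = tanh(3t)` -/
lemma coth_line {s : ℂ} (hs : |s.im| = Real.pi / 6) :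
    Complex.cosh (3 * s) / Complex.sinh (3 * s) = Complex.tanh ((3 * s.re : ℝ) : ℂ) := by
  have h1 : Complex.cosh ((Real.pi / 2 : ℝ) * I) = 0 := by
    rw [Complex.cosh_mul_I, ← Complex.ofReal_cos]; simp
  have h2 : Complex.sinh ((Real.pi / 2 : ℝ) * I) = I := by
    rw [Complex.sinh_mul_I, ← Complex.ofReal_sin]; simp
  have h3 : Complex.cosh ((3 * s.re : ℝ) : ℂ) ≠ 0 := by
    rw [← Complex.ofReal_cosh]; exact_mod_cast (Real.cosh_pos _).ne'
  have hI := Complex.I_ne_zero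
  rcases line_cases hs with h | h
  · have e : 3 * s = ((3 * s.re : ℝ) : ℂ) + (Real.pi / 2 : ℝ) * I := by
      conv_lhs => rw [h]
      rw [sh]; push_cast; ring
    rw [e, Complex.cosh_add, Complex.sinh_add, h1, h2, Complex.tanh_eq_sinh_div_cosh, mul_zero, mul_zero, zero_add,
      zero_add, mul_div_mul_right _ _ hI]
  · have e : 3 * s = ((3 * s.re : ℝ) : ℂ) - (Real.pi / 2 : ℝ) * I := by
      conv_lhs => rw [h]
      rw [sh]; push_cast; ring
    rw [e, Complex.cosh_sub, Complex.sinh_sub, h1, h2, Complex.tanh_eq_sinh_div_cosh, mul_zero, mul_zero, zero_sub,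
      zero_sub, neg_div_neg_eq, mul_div_mul_right _ _ hI]

/-- **Growth lemma** on the strip `|Im s| ≤ π/6`. -/
theorem norm_gr_le (P : Polynomial ℂ) {n : ℕ} (hn : P.natDegree ≤ n) {C : ℝ}
    (hP : ∀ t : ℝ, ‖P.eval (Complex.tanh (t : ℂ) ^ 2)‖ ≤ C) {s : ℂ} (hs : |s.im| ≤ Real.pi / 6) :
    ‖gr P n s‖ ≤ C := by
  obtain ⟨C₀, hC₀⟩ := gr_bdd P n
  refine strip_le (dcc_gr P n) (C₀ := C₀) (fun z hz => hC₀ z ?_) (fun z hz => ?_) hs
  · rw [mem_Sc]; exact (mem_So.1 hz).le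
  · have hz0 : z ≠ 0 := by
      intro h
      rw [h, zero_im, abs_zero] at hz
      linarith [Real.pi_pos]
    rw [gr_eq P hn hz.le hz0, norm_mul, norm_pow, norm_th_line hz, one_pow, mul_one, coth_line hz]
    exact hP _

lemma gr_zero (P : Polynomial ℂ) (n : ℕ) : gr P n 0 = P.coeff n / 4 ^ n := by
  have h4 : (1 / 2 : ℂ) ^ 2 = 4⁻¹ := by norm_num
  rw [gr, Finset.sum_range_succ, Finset.sum_eq_zero, zero_add, cth_zero, th_zero, Nat.sub_self, mul_zero, pow_zero,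
    mul_one, pow_mul, h4]
  · rw [div_eq_mul_inv, inv_pow]
  · intro j hj
    have : j < n := by simpa using hj
    rw [th_zero, zero_pow (by omega), mul_zero]

/-- the leading coefficient is at most `C 4^n` -/
theorem norm_coeff_le (P : Polynomial ℂ) {n : ℕ} (hn : P.natDegree ≤ n) {C : ℝ}
    (hP : ∀ t : ℝ, ‖P.eval (Complex.tanh (t : ℂ) ^ 2)‖ ≤ C) : ‖P.coeff n‖ ≤ C * 4 ^ n := by
  have h := norm_gr_le P hn hP (s := 0) (by rw [zero_im, abs_zero]; positivity)
  rwa [gr_zero, norm_div, norm_pow, Complex.norm_ofNat, div_le_iff₀ (by positivity)] at h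

/-- **Growth lemma**, unscaled: `|P(coth(s)^2)| |tanh(s/2)|^(2n) ≤ C` for `|Im s| ≤ π/2`, `s ≠ 0`. -/
theorem growth (P : Polynomial ℂ) {n : ℕ} (hn : P.natDegree ≤ n) {C : ℝ}
    (hP : ∀ t : ℝ, ‖P.eval (Complex.tanh (t : ℂ) ^ 2)‖ ≤ C) {s : ℂ} (hs : |s.im| ≤ Real.pi / 2) (h0 : s ≠ 0) :
    ‖P.eval ((Complex.cosh s / Complex.sinh s) ^ 2)‖ * ‖Complex.tanh (s / 2)‖ ^ (2 * n) ≤ C := by
  have him : |(s / 3).im| ≤ Real.pi / 6 := by
    have : (s / 3).im = s.im / 3 := by simp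
    rw [this, abs_div]
    simp only [Nat.abs_ofNat]
    linarith
  have h := norm_gr_le P hn hP (s := s / 3) him
  rw [gr_eq P hn him (by simpa using h0), norm_mul, norm_pow, show 3 * (s / 3) = s by ring, th,
    show 3 * (s / 3) / 2 = s / 2 by ring] at h
  exact h

end Ann
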