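import Mathlib

/-!
# The dilogarithm on `ℂ \ [1, ∞)`

`Li2 z = -∫₀¹ log(1 - t z)/t dt`. Derivative, reflection formula, a special value.
-/

set_option autoImplicit false

namespace Dilog

open Complex Set MeasureTheory intervalIntegral Filter Topology

/-- the dilogarithm -/
noncomputable def Li2 (z : ℂ) : ℂ := ∫ t in (0 : ℝ)..1, -(dslope (fun t : ℝ => log (1 - t * z)) 0 t)

lemma mem_slit {z : ℂ} (hz : 1 - z ∈ slitPlane) {t : ℝ} (h0 : 0 ≤ t) (h1 : t ≤ 1) :
    1 - t * z ∈ slitPlane := by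
  have h := StarConvex.add_smul_mem starConvex_one_slitPlane (by simpa [sub_eq_add_neg] using hz : 1 + (-z) ∈ slitPlane) h0 h1
  simpa [sub_eq_add_neg] using h

lemma isOpen_dom : IsOpen {z : ℂ | 1 - z ∈ slitPlane} :=
  isOpen_slitPlane.preimage (continuous_const.sub continuous_id)

lemma hasDerivAt_inner {z : ℂ} {t : ℝ} (h : 1 - t * z ∈ slitPlane) :
    HasDerivAt (fun t : ℝ => log (1 - t * z)) (-z / (1 - t * z)) t := by
  have h1 : HasDerivAt (fun t : ℝ => (1 : ℂ) - t * z) (-z) t := by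
    have h2 : HasDerivAt (fun t : ℝ => (t : ℂ)) 1 t := Complex.ofRealCLM.hasDerivAt
    refine ((h2.mul_const z).const_sub 1).congr_deriv ?_
    ring
  exact h1.clog_real h

lemma dslope_of_pos {z : ℂ} {t : ℝ} (h : 0 < t) :
    -(dslope (fun t : ℝ => log (1 - t * z)) 0 t) = -(log (1 - t * z) / t) := by
  rw [dslope_of_ne _ h.ne', slope_def_module]
  simp only [sub_zero, ofReal_zero, zero_mul, log_one, Complex.real_smul, ofReal_inv]
  rw [div_eq_inv_mul]

lemma continuousOn_dsl {z : ℂ} (hz : 1 - z ∈ slitPlane) :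
    ContinuousOn (fun t : ℝ => -(dslope (fun t : ℝ => log (1 - t * z)) 0 t)) (Icc 0 1) := by
  intro t ht
  refine ContinuousAt.continuousWithinAt ?_
  refine ContinuousAt.neg ?_
  have hd := hasDerivAt_inner (mem_slit hz ht.1 ht.2)
  rcases ht.1.eq_or_lt with h | h
  · rw [← h] at hd ⊢
    exact continuousAt_dslope_same.2 hd.differentiableAt
  · exact (continuousAt_dslope_of_ne h.ne').2 hd.continuousAt

lemma intervalIntegrable_dsl {z : ℂ} (hz : 1 - z ∈ slitPlane) :
    IntervalIntegrable (fun t : ℝ => -(dslope (fun t : ℝ => log (1 - t * z)) 0 t)) volume 0 1 := by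
  refine ContinuousOn.intervalIntegrable ?_
  rw [uIcc_of_le zero_le_one]
  exact continuousOn_dsl hz

lemma hasDerivAt_Li2_aux {z : ℂ} (hz : 1 - z ∈ slitPlane) :
    HasDerivAt Li2 (∫ t in (0 : ℝ)..1, 1 / (1 - t * z)) z := by
  obtain ⟨ε, hε, hball⟩ := Metric.isOpen_iff.1 isOpen_dom z hz
  have hK : IsCompact (Icc (0 : ℝ) 1 ×ˢ Metric.closedBall z (ε / 2)) :=
    isCompact_Icc.prod (isCompact_closedBall z (ε / 2))
  have hmem : ∀ p ∈ Icc (0 : ℝ) 1 ×ˢ Metric.closedBall z (ε / 2), 1 - (p.1 : ℂ) * p.2 ∈ slitPlane := by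
    intro p hp
    have h1 : 1 - p.2 ∈ slitPlane := hball (Metric.closedBall_subset_ball (by linarith) hp.2)
    exact mem_slit h1 hp.1.1 hp.1.2
  have hc : ContinuousOn (fun p : ℝ × ℂ => 1 / (1 - (p.1 : ℂ) * p.2))
      (Icc (0 : ℝ) 1 ×ˢ Metric.closedBall z (ε / 2)) := by
    refine ContinuousOn.div continuousOn_const (by fun_prop) ?_
    intro p hp
    exact slitPlane_ne_zero (hmem p hp)
  obtain ⟨C, hC⟩ := hK.exists_bound_of_continuousOn hc
  have hs : Metric.ball z (ε / 2) ∈ 𝓝 z := Metric.ball_mem_nhds z (by linarith)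
  have hIoc : uIoc (0 : ℝ) 1 = Ioc 0 1 := uIoc_of_le zero_le_one
  refine (hasDerivAt_integral_of_dominated_loc_of_deriv_le (μ := volume) (bound := fun _ => C)
    (F := fun z t => -(dslope (fun t : ℝ => log (1 - t * z)) 0 t))
    (F' := fun z t => 1 / (1 - t * z)) hs ?_ (intervalIntegrable_dsl hz) ?_ ?_ intervalIntegrable_const ?_).2
  · filter_upwards [hs] with x hx
    have hx1 : 1 - x ∈ slitPlane := hball (Metric.ball_subset_ball (by linarith) hx)
    rw [hIoc]
    exact ((continuousOn_dsl hx1).mono Ioc_subset_Icc_self).aestronglyMeasurable measurableSet_Ioc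
  · rw [hIoc]
    refine ContinuousOn.aestronglyMeasurable ?_ measurableSet_Ioc
    refine ContinuousOn.div continuousOn_const (by fun_prop) ?_
    intro t ht
    exact slitPlane_ne_zero (mem_slit hz ht.1.le ht.2)
  · refine Eventually.of_forall fun t ht x hx => ?_
    rw [hIoc] at ht
    exact hC (t, x) ⟨⟨ht.1.le, ht.2⟩, Metric.ball_subset_closedBall hx⟩
  · refine Eventually.of_forall fun t ht x hx => ?_
    rw [hIoc] at ht
    have h1 : 1 - (t : ℂ) * x ∈ slitPlane := hmem (t, x) ⟨⟨ht.1.le, ht.2⟩, Metric.ball_subset_closedBall hx⟩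
    have e : (fun x => -(dslope (fun t : ℝ => log (1 - t * x)) 0 t)) = fun x : ℂ => -(log (1 - t * x) / t) := by
      funext x
      exact dslope_of_pos ht.1
    rw [e]
    have h2 : HasDerivAt (fun x : ℂ => 1 - (t : ℂ) * x) (-t) x := by
      refine (((hasDerivAt_id x).const_mul (t : ℂ)).const_sub 1).congr_deriv ?_
      ring
    refine ((h2.clog h1).div_const (t : ℂ)).neg.congr_deriv ?_
    have : (t : ℂ) ≠ 0 := by exact_mod_cast ht.1.ne'
    have := slitPlane_ne_zero h1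
    field_simp

lemma integral_one_div {z : ℂ} (hz : 1 - z ∈ slitPlane) (h0 : z ≠ 0) :
    ∫ t in (0 : ℝ)..1, 1 / (1 - (t : ℂ) * z) = -(log (1 - z)) / z := by
  have hd : ∀ t ∈ uIcc (0 : ℝ) 1, HasDerivAt (fun t : ℝ => -(log (1 - t * z)) / z) (1 / (1 - (t : ℂ) * z)) t := by
    intro t ht
    rw [uIcc_of_le zero_le_one] at ht
    have h1 := mem_slit hz ht.1 ht.2
    refine (((hasDerivAt_inner h1).neg).div_const z).congr_deriv ?_
    have := slitPlane_ne_zero h1
    field_simp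
  rw [integral_eq_sub_of_hasDerivAt hd]
  · simp
  · refine ContinuousOn.intervalIntegrable ?_
    rw [uIcc_of_le zero_le_one]
    refine ContinuousOn.div continuousOn_const (by fun_prop) ?_
    intro t ht
    exact slitPlane_ne_zero (mem_slit hz ht.1 ht.2)

/-- derivative of the dilogarithm -/
theorem hasDerivAt_Li2 {z : ℂ} (hz : 1 - z ∈ slitPlane) (h0 : z ≠ 0) :
    HasDerivAt Li2 (-(log (1 - z)) / z) z := by
  rw [← integral_one_div hz h0]
  exact hasDerivAt_Li2_aux hz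

lemma Li2_zero : Li2 0 = 0 := by
  unfold Li2
  have e : (fun t : ℝ => log (1 - t * (0 : ℂ))) = fun _ => (0 : ℂ) := by
    funext t
    simp
  have h : ∀ t : ℝ, -(dslope (fun t : ℝ => log (1 - t * (0 : ℂ))) 0 t) = 0 := by
    intro t
    rw [e, neg_eq_zero]
    rcases eq_or_ne t 0 with h | h
    · rw [h, dslope_same]
      simp
    · rw [dslope_of_ne _ h, slope_def_module]
      simp
  rw [integral_congr (g := fun _ => (0 : ℂ)) (fun t _ => h t)]
  simp

lemma continuousAt_Li2 {z : ℂ} (hz : 1 - z ∈ slitPlane) : ContinuousAt Li2 z :=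
  (hasDerivAt_Li2_aux hz).continuousAt

lemma differentiableAt_Li2 {z : ℂ} (hz : 1 - z ∈ slitPlane) : DifferentiableAt ℂ Li2 z :=
  (hasDerivAt_Li2_aux hz).differentiableAt

/-! ### the power series and the limit at `1` -/

lemma one_sub_mem_slit {z : ℂ} (hz : ‖z‖ < 1) : 1 - z ∈ slitPlane := by
  have := mem_slitPlane_of_norm_lt_one (z := -z) (by rwa [norm_neg])
  rwa [← sub_eq_add_neg] at this

lemma hasSum_Li2 {z : ℂ} (hz : ‖z‖ < 1) :
    HasSum (fun n : ℕ => z ^ (n + 1) / ((n : ℂ) + 1) ^ 2) (Li2 z) := by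
  have h1 : HasSum (fun n : ℕ => ∫ t in (0 : ℝ)..1, z ^ (n + 1) * (t : ℂ) ^ n / ((n : ℂ) + 1)) (Li2 z) := by
    refine intervalIntegral.hasSum_integral_of_dominated_convergence (μ := volume)
      (fun n _ => ‖z‖ ^ (n + 1)) ?_ ?_ ?_ ?_ ?_
    · intro n
      exact Continuous.aestronglyMeasurable (by fun_prop)
    · intro n
      refine Eventually.of_forall fun t ht => ?_
      rw [uIoc_of_le zero_le_one] at ht
      rw [norm_div, norm_mul, norm_pow, norm_pow]
      have h2 : ‖(t : ℂ)‖ ^ n ≤ 1 := by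
        rw [Complex.norm_real, Real.norm_of_nonneg ht.1.le]
        exact pow_le_one₀ ht.1.le ht.2
      have h3 : 1 ≤ ‖(n : ℂ) + 1‖ := by
        have : ((n : ℂ) + 1) = ((n + 1 : ℕ) : ℂ) := by push_cast; ring
        rw [this, Complex.norm_natCast]
        exact_mod_cast Nat.succ_le_succ (Nat.zero_le n)
      rw [div_le_iff₀ (by linarith)]
      calc ‖z‖ ^ (n + 1) * ‖(t : ℂ)‖ ^ n ≤ ‖z‖ ^ (n + 1) * 1 :=
            mul_le_mul_of_nonneg_left h2 (by positivity)
        _ ≤ ‖z‖ ^ (n + 1) * ‖(n : ℂ) + 1‖ := mul_le_mul_of_nonneg_left h3 (by positivity)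
    · refine Eventually.of_forall fun t _ => ?_
      exact ((summable_geometric_of_lt_one (norm_nonneg z) hz).mul_left ‖z‖).congr fun n => by ring
    · exact intervalIntegrable_const
    · refine Eventually.of_forall fun t ht => ?_
      rw [uIoc_of_le zero_le_one] at ht
      rw [dslope_of_pos ht.1]
      have h2 : ‖(t : ℂ) * z‖ < 1 := by
        rw [norm_mul, Complex.norm_real, Real.norm_of_nonneg ht.1.le]
        calc t * ‖z‖ ≤ 1 * ‖z‖ := mul_le_mul_of_nonneg_right ht.2 (norm_nonneg z)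
          _ < 1 := by rwa [one_mul]
      have h3 := (hasSum_taylorSeries_neg_log' h2).div_const (t : ℂ)
      rw [← neg_div]
      refine h3.congr_fun ?_
      intro n
      have : (t : ℂ) ≠ 0 := by exact_mod_cast ht.1.ne'
      field_simp
      ring
  refine h1.congr_fun ?_
  intro n
  have h2 : ∫ t in (0 : ℝ)..1, z ^ (n + 1) * (t : ℂ) ^ n / ((n : ℂ) + 1) =
      z ^ (n + 1) / ((n : ℂ) + 1) * ∫ t in (0 : ℝ)..1, ((t ^ n : ℝ) : ℂ) := by
    rw [← intervalIntegral.integral_const_mul]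
    refine integral_congr fun t _ => ?_
    push_cast
    ring
  rw [h2, intervalIntegral.integral_ofReal, integral_pow]
  have : (n : ℂ) + 1 ≠ 0 := by exact_mod_cast Nat.succ_ne_zero n
  push_cast
  simp only [one_pow]
  field_simp
  simp

lemma hasSum_zeta_two' : HasSum (fun n : ℕ => (1 : ℂ) / ((n : ℂ) + 1) ^ 2) ((Real.pi : ℂ) ^ 2 / 6) := by
  have h := hasSum_zeta_two
  rw [← hasSum_nat_add_iff' 1] at h
  have h2 : HasSum (fun n : ℕ => (((1 : ℝ) / ((n + 1 : ℕ) : ℝ) ^ 2 : ℝ) : ℂ))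
      (((Real.pi ^ 2 / 6 - ∑ i ∈ Finset.range 1, 1 / (i : ℝ) ^ 2 : ℝ)) : ℂ) := by
    exact_mod_cast Complex.hasSum_ofReal.2 h
  have e : (((Real.pi ^ 2 / 6 - ∑ i ∈ Finset.range 1, 1 / (i : ℝ) ^ 2 : ℝ)) : ℂ) = (Real.pi : ℂ) ^ 2 / 6 := by
    simp
  rw [e] at h2
  refine h2.congr_fun ?_
  intro n
  push_cast
  ring

/-- `Li2 x → π²/6` as `x → 1-` -/
lemma tendsto_Li2_one : Tendsto (fun x : ℝ => Li2 (x : ℂ)) (𝓝[<] 1) (𝓝 ((Real.pi : ℂ) ^ 2 / 6)) := by
  have hcont : ContinuousOn (fun x : ℝ => ∑' n : ℕ, (x : ℂ) ^ (n + 1) / ((n : ℂ) + 1) ^ 2) (Icc 0 1) := by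
    have hsum : Summable (fun n : ℕ => (1 : ℝ) / ((n : ℝ) + 1) ^ 2) := by
      have h := (summable_nat_add_iff 1).2 hasSum_zeta_two.summable
      refine h.congr fun n => ?_
      push_cast
      ring
    refine continuousOn_tsum (u := fun n : ℕ => (1 : ℝ) / ((n : ℝ) + 1) ^ 2) (fun n => ?_) hsum ?_
    · exact Continuous.continuousOn (by fun_prop)
    · intro n x hx
      rw [norm_div, norm_pow, norm_pow, Complex.norm_real, Real.norm_of_nonneg hx.1]
      have h3 : ‖(n : ℂ) + 1‖ = (n : ℝ) + 1 := by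
        have : ((n : ℂ) + 1) = ((n + 1 : ℕ) : ℂ) := by push_cast; ring
        rw [this, Complex.norm_natCast]
        push_cast
        ring
      rw [h3]
      exact div_le_div_of_nonneg_right (pow_le_one₀ hx.1 hx.2) (by positivity)
  have h1 : ContinuousWithinAt (fun x : ℝ => ∑' n : ℕ, (x : ℂ) ^ (n + 1) / ((n : ℂ) + 1) ^ 2) (Ico 0 1) 1 :=
    (hcont 1 ⟨zero_le_one, le_rfl⟩).mono Ico_subset_Icc_self
  have h2 : (∑' n : ℕ, ((1 : ℝ) : ℂ) ^ (n + 1) / ((n : ℂ) + 1) ^ 2) = (Real.pi : ℂ) ^ 2 / 6 := by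
    rw [← hasSum_zeta_two'.tsum_eq]
    simp
  have h3 : Tendsto (fun x : ℝ => ∑' n : ℕ, (x : ℂ) ^ (n + 1) / ((n : ℂ) + 1) ^ 2) (𝓝[Ico 0 1] 1)
      (𝓝 ((Real.pi : ℂ) ^ 2 / 6)) := by
    rw [← h2]
    exact h1
  have h4 : 𝓝[Ico (0 : ℝ) 1] 1 = 𝓝[<] 1 := nhdsWithin_Ico_eq_nhdsLT zero_lt_one
  rw [h4] at h3
  refine h3.congr' ?_
  filter_upwards [Ico_mem_nhdsLT (zero_lt_one : (0 : ℝ) < 1)] with x hx
  refine (hasSum_Li2 ?_).tsum_eq
  rw [Complex.norm_real, Real.norm_of_nonneg hx.1]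
  exact hx.2

/-! ### reflection -/

/-- the common domain -/
def dom2 : Set ℂ := {z | z ∈ slitPlane ∧ 1 - z ∈ slitPlane}

lemma isOpen_dom2 : IsOpen dom2 := isOpen_slitPlane.inter isOpen_dom

lemma starConvex_dom2 : StarConvex ℝ (1 / 2 : ℂ) dom2 := by
  intro z hz a b ha hb hab
  have h1 : StarConvex ℝ (((1 / 2 : ℝ)) : ℂ) slitPlane := starConvex_ofReal_slitPlane (by norm_num)
  have e : (((1 / 2 : ℝ)) : ℂ) = 1 / 2 := by push_cast; ring
  rw [e] at h1
  refine ⟨h1 hz.1 ha hb hab, ?_⟩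
  have h2 := h1 hz.2 ha hb hab
  have e2 : (1 : ℂ) - (a • (1 / 2 : ℂ) + b • z) = a • (1 / 2 : ℂ) + b • (1 - z) := by
    have h3 : (a : ℂ) + b = 1 := by exact_mod_cast hab
    simp only [Complex.real_smul]
    linear_combination (-1 : ℂ) * h3
  rw [e2]
  exact h2

lemma half_mem : (1 / 2 : ℂ) ∈ dom2 := by
  constructor
  · rw [mem_slitPlane_iff]
    left
    norm_num
  · rw [mem_slitPlane_iff]
    left
    norm_num

lemma isPreconnected_dom2 : IsPreconnected dom2 :=
  (starConvex_dom2.isPathConnected half_mem).isConnected.isPreconnected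

noncomputable def refl (z : ℂ) : ℂ := Li2 z + Li2 (1 - z) + log z * log (1 - z)

lemma hasDerivAt_refl {z : ℂ} (hz : z ∈ dom2) : HasDerivAt refl 0 z := by
  have hz0 : z ≠ 0 := slitPlane_ne_zero hz.1
  have hz1 : 1 - z ≠ 0 := slitPlane_ne_zero hz.2
  have h0 : HasDerivAt (fun z : ℂ => 1 - z) (-1) z := (hasDerivAt_id z).const_sub 1
  have h1 := hasDerivAt_Li2 hz.2 hz0
  have h2 : HasDerivAt (fun z => Li2 (1 - z)) (-(log (1 - (1 - z))) / (1 - z) * (-1)) z := by
    refine HasDerivAt.comp z (hasDerivAt_Li2 ?_ hz1) h0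
    rw [sub_sub_cancel]
    exact hz.1
  have h3 : HasDerivAt (fun z => log z * log (1 - z)) (1 / z * log (1 - z) + log z * (-1 / (1 - z))) z := by
    refine ((hasDerivAt_id z).clog hz.1).mul (h0.clog hz.2)
  refine ((h1.add h2).add h3).congr_deriv ?_
  rw [sub_sub_cancel]
  field_simp
  ring

lemma refl_const {z : ℂ} (hz : z ∈ dom2) : refl z = refl (1 / 2) := by
  refine isOpen_dom2.is_const_of_deriv_eq_zero isPreconnected_dom2
    (fun z hz => (hasDerivAt_refl hz).differentiableAt.differentiableWithinAt) ?_ hz half_mem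
  intro z hz
  exact (hasDerivAt_refl hz).deriv

lemma ofReal_mem_dom2 {x : ℝ} (h0 : 0 < x) (h1 : x < 1) : (x : ℂ) ∈ dom2 := by
  constructor
  · rw [mem_slitPlane_iff]
    left
    simpa using h0
  · rw [mem_slitPlane_iff]
    left
    simpa using h1

lemma refl_half : refl (1 / 2) = (Real.pi : ℂ) ^ 2 / 6 := by
  have h1 : Tendsto (fun x : ℝ => refl (x : ℂ)) (𝓝[<] 1) (𝓝 (refl (1 / 2))) := by
    refine tendsto_const_nhds.congr' ?_
    filter_upwards [Ioo_mem_nhdsLT (zero_lt_one : (0 : ℝ) < 1)] with x hx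
    exact (refl_const (ofReal_mem_dom2 hx.1 hx.2)).symm
  have h2 : Tendsto (fun x : ℝ => Li2 (1 - (x : ℂ))) (𝓝[<] 1) (𝓝 0) := by
    have h3 : ContinuousAt (fun x : ℝ => Li2 (1 - (x : ℂ))) 1 := by
      have h4 : ContinuousAt Li2 (1 - ((1 : ℝ) : ℂ)) := by
        refine continuousAt_Li2 ?_
        rw [mem_slitPlane_iff]
        left
        simp
      exact ContinuousAt.comp (f := fun x : ℝ => (1 - (x : ℂ))) h4 (by fun_prop)
    have h5 := h3.tendsto.mono_left (nhdsWithin_le_nhds (s := Iio 1))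
    simpa [Li2_zero] using h5
  have h3 : Tendsto (fun x : ℝ => log (x : ℂ) * log (1 - (x : ℂ))) (𝓝[<] 1) (𝓝 0) := by
    rw [tendsto_zero_iff_norm_tendsto_zero]
    have h4 : Tendsto (fun x : ℝ => Real.log (1 - x) * (1 - x)) (𝓝[<] 1) (𝓝 0) := by
      have h5 : Tendsto (fun x : ℝ => Real.log x * x) (𝓝[>] 0) (𝓝 0) := by
        have := tendsto_log_mul_rpow_nhdsGT_zero (zero_lt_one : (0 : ℝ) < 1)
        simpa only [Real.rpow_one] using this
      have h6 : Tendsto (fun x : ℝ => 1 - x) (𝓝[<] 1) (𝓝[>] 0) := by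
        refine tendsto_nhdsWithin_of_tendsto_nhds_of_eventually_within _ ?_ ?_
        · have : ContinuousAt (fun x : ℝ => 1 - x) 1 := by fun_prop
          have h7 := this.tendsto.mono_left (nhdsWithin_le_nhds (s := Iio 1))
          simpa using h7
        · filter_upwards [self_mem_nhdsWithin] with x hx
          have : x < 1 := hx
          exact mem_Ioi.2 (by linarith)
      exact h5.comp h6
    have h7 : Tendsto (fun x : ℝ => 2 * |Real.log (1 - x) * (1 - x)|) (𝓝[<] 1) (𝓝 0) := by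
      have := (h4.abs).const_mul 2
      simpa using this
    refine squeeze_zero' (Eventually.of_forall fun x => norm_nonneg _) ?_ h7
    filter_upwards [Ioo_mem_nhdsLT (show (1 / 2 : ℝ) < 1 by norm_num)] with x hx
    have hx0 : 0 < x := by linarith [hx.1]
    have e1 : log (x : ℂ) = (Real.log x : ℂ) := (Complex.ofReal_log hx0.le).symm
    have e2 : log (1 - (x : ℂ)) = (Real.log (1 - x) : ℂ) := by
      rw [Complex.ofReal_log (by linarith [hx.2])]
      push_cast
      rfl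
    rw [e1, e2, norm_mul, Complex.norm_real, Complex.norm_real, Real.norm_eq_abs, Real.norm_eq_abs, abs_mul]
    have h8 : |Real.log x| ≤ 2 * |1 - x| := by
      have h9 : Real.log x ≤ 0 := Real.log_nonpos hx0.le hx.2.le
      rw [abs_of_nonpos h9, abs_of_pos (by linarith [hx.2])]
      have h10 := Real.log_le_sub_one_of_pos (inv_pos.2 hx0)
      rw [Real.log_inv] at h10
      have h11 : x⁻¹ - 1 ≤ 2 * (1 - x) := by
        rw [sub_le_iff_le_add, inv_le_iff_one_le_mul₀ hx0]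
        nlinarith [hx.1, hx.2]
      linarith
    calc |Real.log x| * |Real.log (1 - x)| ≤ 2 * |1 - x| * |Real.log (1 - x)| :=
          mul_le_mul_of_nonneg_right h8 (abs_nonneg _)
      _ = 2 * (|Real.log (1 - x)| * |1 - x|) := by ring
  have h4 := (tendsto_Li2_one.add h2).add h3
  have h5 := tendsto_nhds_unique h1 h4
  rw [h5]
  ring

/-- **reflection formula** -/
theorem Li2_reflection {z : ℂ} (h0 : z ∈ slitPlane) (h1 : 1 - z ∈ slitPlane) :
    Li2 z + Li2 (1 - z) = (Real.pi : ℂ) ^ 2 / 6 - log z * log (1 - z) := by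
  have h := refl_const (z := z) ⟨h0, h1⟩
  rw [refl_half, refl] at h
  linear_combination h

/-! ### the special value -/

/-- `∫₀¹ dt/(1 - t z)` -/
noncomputable def L1 (z : ℂ) : ℂ := ∫ t in (0 : ℝ)..1, 1 / (1 - (t : ℂ) * z)

lemma hasDerivAt_Li2_L1 {z : ℂ} (hz : 1 - z ∈ slitPlane) : HasDerivAt Li2 (L1 z) z := hasDerivAt_Li2_aux hz

lemma L1_zero : L1 0 = 1 := by
  unfold L1
  simp

lemma mul_L1 {z : ℂ} (hz : 1 - z ∈ slitPlane) : z * L1 z = -(log (1 - z)) := by
  rcases eq_or_ne z 0 with h | h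
  · rw [h]
    simp
  · unfold L1
    rw [integral_one_div hz h]
    field_simp

lemma L1_eq {z : ℂ} (hz : 1 - z ∈ slitPlane) (h : z ≠ 0) : L1 z = -(log (1 - z)) / z := integral_one_div hz h

lemma real_slit {x : ℝ} (h : x < 1) : 1 - (x : ℂ) ∈ slitPlane := by
  rw [mem_slitPlane_iff]
  left
  simpa using h

lemma hasDerivAt_Li2_real {f : ℝ → ℝ} {f' x : ℝ} (hf : HasDerivAt f f' x) (h : f x < 1) :
    HasDerivAt (fun x : ℝ => Li2 (f x : ℂ)) (L1 (f x : ℂ) * f') x := by
  have h1 := hasDerivAt_Li2_L1 (real_slit h)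
  exact h1.comp x hf.ofReal_comp

lemma log_one_sub {x : ℝ} (h : x < 1) : log (1 - (x : ℂ)) = (Real.log (1 - x) : ℂ) := by
  rw [Complex.ofReal_log (by linarith)]
  push_cast
  rfl

/-- Landen's identity on `(-∞, 1)` -/
theorem landen {x : ℝ} (hx : x < 1) :
    Li2 (x : ℂ) + Li2 ((x / (x - 1) : ℝ) : ℂ) = -((Real.log (1 - x) : ℂ) ^ 2 / 2) := by
  set h : ℝ → ℂ := fun x => Li2 (x : ℂ) + Li2 ((x / (x - 1) : ℝ) : ℂ) + (Real.log (1 - x) : ℂ) ^ 2 / 2 with hh
  have hlt : ∀ x : ℝ, x < 1 → x / (x - 1) < 1 := by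
    intro x hx
    rw [div_lt_one_of_neg (by linarith)]
    linarith
  have hd : ∀ x : ℝ, x < 1 → HasDerivAt h 0 x := by
    intro x hx
    have h1 := hasDerivAt_Li2_real (hasDerivAt_id x) hx
    have hx1 : x - 1 ≠ 0 := by linarith
    have h2 : HasDerivAt (fun x : ℝ => x / (x - 1)) (-1 / (x - 1) ^ 2) x := by
      refine ((hasDerivAt_id x).div ((hasDerivAt_id x).sub_const 1) hx1).congr_deriv ?_
      simp only [id]
      ring
    have h3 := hasDerivAt_Li2_real h2 (hlt x hx)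
    have h4 : HasDerivAt (fun x : ℝ => Real.log (1 - x)) (-1 / (1 - x)) x := by
      refine (((hasDerivAt_id' x).const_sub 1).log (by linarith)).congr_deriv ?_
      simp
    have h5 := (h4.ofReal_comp.pow 2).div_const 2
    refine ((h1.add h3).add h5).congr_deriv ?_
    simp only [id]
    have hxc : (x : ℂ) - 1 ≠ 0 := by exact_mod_cast hx1
    have hxc' : 1 - (x : ℂ) ≠ 0 := by
      intro h
      apply hxc
      linear_combination -h
    rcases eq_or_ne x 0 with h0 | h0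
    · subst h0
      simp [L1_zero]
    · have hxc0 : (x : ℂ) ≠ 0 := by exact_mod_cast h0
      rw [L1_eq (real_slit hx) hxc0, L1_eq (real_slit (hlt x hx)) (by
        push_cast
        exact div_ne_zero hxc0 hxc), log_one_sub hx, log_one_sub (hlt x hx)]
      have h6 : Real.log (1 - x / (x - 1)) = -Real.log (1 - x) := by
        rw [← Real.log_inv]
        congr 1
        have : (1 : ℝ) - x ≠ 0 := by linarith
        field_simp
        ring
      rw [h6]
      push_cast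
      field_simp
      ring
  have h0 : h 0 = 0 := by
    rw [hh]
    simp [Li2_zero]
  have hx' : h x = h 0 := by
    have hcv : Convex ℝ (Iio (1 : ℝ)) := convex_Iio 1
    refine isOpen_Iio.is_const_of_deriv_eq_zero hcv.isPreconnected
      (fun z hz => (hd z hz).differentiableAt.differentiableWithinAt) ?_ (mem_Iio.2 hx) (mem_Iio.2 one_pos)
    intro z hz
    exact (hd z hz).deriv
  rw [h0] at hx'
  rw [hh] at hx'
  simp only at hx'
  linear_combination hx'

/-- duplication formula on `(-1, 1)` -/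
theorem duplication {x : ℝ} (h0 : -1 < x) (h1 : x < 1) :
    Li2 ((x ^ 2 : ℝ) : ℂ) = 2 * (Li2 (x : ℂ) + Li2 ((-x : ℝ) : ℂ)) := by
  set h : ℝ → ℂ := fun x => Li2 ((x ^ 2 : ℝ) : ℂ) - 2 * (Li2 (x : ℂ) + Li2 ((-x : ℝ) : ℂ)) with hh
  have hd : ∀ x ∈ Ioo (-1 : ℝ) 1, HasDerivAt h 0 x := by
    intro x hx
    have hsq : x ^ 2 < 1 := by nlinarith [hx.1, hx.2]
    have h2 := hasDerivAt_Li2_real (hasDerivAt_id x) hx.2
    have h3 := hasDerivAt_Li2_real (hasDerivAt_neg' x) (by linarith [hx.1] : -x < 1)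
    have h4 := hasDerivAt_Li2_real (hasDerivAt_pow 2 x) hsq
    refine (h4.sub ((h2.add h3).const_mul 2)).congr_deriv ?_
    simp only [id]
    rcases eq_or_ne x 0 with h5 | h5
    · subst h5
      simp [L1_zero]
    · have hxc0 : (x : ℂ) ≠ 0 := by exact_mod_cast h5
      have hneg : ((-x : ℝ) : ℂ) ≠ 0 := by
        push_cast
        exact neg_ne_zero.2 hxc0
      have hsq0 : ((x ^ 2 : ℝ) : ℂ) ≠ 0 := by
        push_cast
        exact pow_ne_zero 2 hxc0
      rw [L1_eq (real_slit hx.2) hxc0, L1_eq (real_slit (by linarith [hx.1] : -x < 1)) hneg,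
        L1_eq (real_slit hsq) hsq0, log_one_sub hx.2, log_one_sub (by linarith [hx.1] : -x < 1), log_one_sub hsq]
      have h6 : Real.log (1 - x ^ 2) = Real.log (1 - x) + Real.log (1 - -x) := by
        rw [← Real.log_mul (by linarith [hx.2]) (by linarith [hx.1])]
        congr 1
        ring
      rw [h6]
      push_cast
      field_simp
      ring
  have hz : h 0 = 0 := by
    rw [hh]
    simp [Li2_zero]
  have hx' : h x = h 0 := by
    have hcv : Convex ℝ (Ioo (-1 : ℝ) 1) := convex_Ioo _ _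
    refine isOpen_Ioo.is_const_of_deriv_eq_zero hcv.isPreconnected
      (fun z hz => (hd z hz).differentiableAt.differentiableWithinAt) ?_ ⟨h0, h1⟩ ⟨by norm_num, by norm_num⟩
    intro z hz
    exact (hd z hz).deriv
  rw [hz, hh] at hx'
  simp only at hx'
  linear_combination hx'

/-- reflection for real arguments -/
lemma reflection_real {x : ℝ} (h0 : 0 < x) (h1 : x < 1) :
    Li2 (x : ℂ) + Li2 ((1 - x : ℝ) : ℂ) = (Real.pi : ℂ) ^ 2 / 6 - (Real.log x : ℂ) * (Real.log (1 - x) : ℂ) := by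
  have h := ofReal_mem_dom2 h0 h1
  have h2 := Li2_reflection h.1 h.2
  rw [log_one_sub h1, ← Complex.ofReal_log h0.le] at h2
  push_cast at h2 ⊢
  exact h2

/-- the special value used in the quantisation -/
theorem special_value :
    2 * Li2 (-2) + Li2 (-3) + 2 * (Real.log 2 : ℂ) * (Real.log 3 : ℂ) = -((Real.pi : ℂ) ^ 2 / 3) := by
  have a1 := landen (show (-2 : ℝ) < 1 by norm_num)
  have a2 := landen (show (-3 : ℝ) < 1 by norm_num)
  have a3 := landen (show (1 / 3 : ℝ) < 1 by norm_num)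
  have b1 := reflection_real (show (0 : ℝ) < 1 / 3 by norm_num) (by norm_num)
  have b2 := reflection_real (show (0 : ℝ) < 1 / 4 by norm_num) (by norm_num)
  have b3 := reflection_real (show (0 : ℝ) < 1 / 2 by norm_num) (by norm_num)
  have c1 := duplication (show (-1 : ℝ) < 1 / 2 by norm_num) (by norm_num)
  have l1 : Real.log (1 / 3) = -Real.log 3 := by rw [one_div, Real.log_inv]
  have l2 : Real.log (1 / 2) = -Real.log 2 := by rw [one_div, Real.log_inv]
  have l3 : Real.log (2 / 3) = Real.log 2 - Real.log 3 := Real.log_div (by norm_num) (by norm_num)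
  have l5 : Real.log 4 = 2 * Real.log 2 := by
    rw [show (4 : ℝ) = 2 ^ 2 by norm_num, Real.log_pow]
    norm_num
  have l4 : Real.log (3 / 4) = Real.log 3 - 2 * Real.log 2 := by
    rw [Real.log_div (by norm_num) (by norm_num), l5]
  have l6 : Real.log (1 / 4) = -(2 * Real.log 2) := by rw [one_div, Real.log_inv, l5]
  rw [show (1 : ℝ) - -2 = 3 by norm_num, show (-2 : ℝ) / (-2 - 1) = 2 / 3 by norm_num] at a1
  rw [show (1 : ℝ) - -3 = 4 by norm_num, show (-3 : ℝ) / (-3 - 1) = 3 / 4 by norm_num, l5] at a2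
  rw [show (1 : ℝ) - 1 / 3 = 2 / 3 by norm_num, show (1 / 3 : ℝ) / (1 / 3 - 1) = -(1 / 2) by norm_num, l3] at a3
  rw [show (1 : ℝ) - 1 / 3 = 2 / 3 by norm_num, l1, l3] at b1
  rw [show (1 : ℝ) - 1 / 4 = 3 / 4 by norm_num, l6, l4] at b2
  rw [show (1 : ℝ) - 1 / 2 = 1 / 2 by norm_num, l2] at b3
  rw [show ((1 / 2 : ℝ)) ^ 2 = 1 / 4 by norm_num] at c1
  push_cast at a1 a2 a3 b1 b2 b3 c1 ⊢
  linear_combination 2 * a1 - 2 * b1 + 2 * a3 + a2 - b2 + c1 + b3

end Dilog
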