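import Pool.Agent.Rect.Spec.Dilog

/-!
# The Steinberg lemma: `∫ V dU` for `e^U + e^V = 1`
-/

set_option autoImplicit false

namespace Dilog

open Complex Set MeasureTheory intervalIntegral Filter Topology

/-- the primitive in the chart `z = e^U ∉ [1, ∞)` -/
noncomputable def PhiA (U V : ℂ) : ℂ := -Li2 (exp U) + (V - log (1 - exp U)) * U

/-- the primitive in the chart `z = e^U ∉ (-∞, 0]` -/
noncomputable def PhiB (U V : ℂ) : ℂ :=
  U * V + Li2 (1 - exp U) - (U - log (exp U)) * V - (Real.pi : ℂ) ^ 2 / 6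

open Classical in
/-- `exp (Φ/(2πi))`, single valued -/
noncomputable def StE (U V : ℂ) : ℂ :=
  if 1 - exp U ∈ slitPlane then exp (PhiA U V / (2 * Real.pi * I)) else exp (PhiB U V / (2 * Real.pi * I))

lemma two_pi_I_ne : (2 * Real.pi * I : ℂ) ≠ 0 := Complex.two_pi_I_ne_zero

lemma exp_div_eq_of {a b : ℂ} {m : ℤ} (h : a - b = (2 * Real.pi * I) ^ 2 * m) :
    exp (a / (2 * Real.pi * I)) = exp (b / (2 * Real.pi * I)) := by
  have e : a / (2 * Real.pi * I) = b / (2 * Real.pi * I) + m * (2 * Real.pi * I) := by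
    have := two_pi_I_ne
    field_simp
    linear_combination h
  rw [e, exp_add, exp_int_mul_two_pi_mul_I, mul_one]

lemma exists_int_of_exp (a : ℂ) : ∃ m : ℤ, a - log (exp a) = m * (2 * Real.pi * I) := by
  have h1 : exp a = exp (log (exp a)) := (exp_log (exp_ne_zero a)).symm
  rw [exp_eq_exp_iff_exists_int] at h1
  obtain ⟨m, hm⟩ := h1
  exact ⟨m, by linear_combination hm⟩

/-- the two charts agree -/
lemma chart_agree {U V : ℂ} (h : exp U + exp V = 1) (h1 : exp U ∈ slitPlane) (h2 : 1 - exp U ∈ slitPlane) :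
    exp (PhiA U V / (2 * Real.pi * I)) = exp (PhiB U V / (2 * Real.pi * I)) := by
  obtain ⟨m, hm⟩ := exists_int_of_exp U
  have hV : exp V = 1 - exp U := by linear_combination h
  obtain ⟨n, hn⟩ := exists_int_of_exp V
  rw [hV] at hn
  refine exp_div_eq_of (m := m * n) ?_
  have hr := Li2_reflection h1 h2
  unfold PhiA PhiB
  push_cast
  linear_combination (-1 : ℂ) * hr + (V - log (1 - exp U)) * hm + (m * (2 * Real.pi * I)) * hn

lemma StE_of_left {U V : ℂ} (h2 : 1 - exp U ∈ slitPlane) : StE U V = exp (PhiA U V / (2 * Real.pi * I)) := by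
  unfold StE
  rw [if_pos h2]

lemma StE_of_right {U V : ℂ} (h : exp U + exp V = 1) (h1 : exp U ∈ slitPlane) :
    StE U V = exp (PhiB U V / (2 * Real.pi * I)) := by
  unfold StE
  split_ifs with h2
  · exact chart_agree h h1 h2
  · rfl

lemma slit_or (U : ℂ) : 1 - exp U ∈ slitPlane ∨ exp U ∈ slitPlane := by
  by_contra hc
  push Not at hc
  obtain ⟨h1, h2⟩ := hc
  rw [mem_slitPlane_iff] at h1 h2
  push Not at h1 h2
  have h3 := h1.1
  have h4 := h2.1
  simp only [sub_re, one_re] at h3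
  linarith

variable {U V U' V' : ℝ → ℂ}

/-- derivative in the first chart -/
lemma hasDerivWithinAt_PhiA {s : Set ℝ} {t : ℝ} (hU : HasDerivWithinAt U (U' t) s t)
    (hV : HasDerivWithinAt V (V' t) s t) (h2 : 1 - exp (U t) ∈ slitPlane)
    (hUV : V' t * exp (V t) = -(U' t * exp (U t))) (h : exp (U t) + exp (V t) = 1) :
    HasDerivWithinAt (fun t => PhiA (U t) (V t)) (V t * U' t) s t := by
  have hz : HasDerivWithinAt (fun t => exp (U t)) (exp (U t) * U' t) s t := hU.cexp
  have h3 : HasDerivWithinAt (fun t => Li2 (exp (U t))) (-(log (1 - exp (U t))) / exp (U t) * (exp (U t) * U' t)) s t :=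
    HasDerivAt.comp_hasDerivWithinAt (h₂ := Li2) t (hasDerivAt_Li2 h2 (exp_ne_zero _)) hz
  have h4 : HasDerivWithinAt (fun t => log (1 - exp (U t))) (-(exp (U t) * U' t) / (1 - exp (U t))) s t :=
    (hz.const_sub 1).clog_real h2
  have h5 := (h3.neg).add ((hV.sub h4).mul hU)
  refine h5.congr_deriv ?_
  have hV0 : exp (V t) = 1 - exp (U t) := by linear_combination h
  have hne := slitPlane_ne_zero h2
  have h6 : V' t = -(exp (U t) * U' t) / (1 - exp (U t)) := by
    rw [eq_div_iff hne, ← hV0]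
    linear_combination hUV
  simp only [Pi.sub_apply]
  rw [h6]
  have := exp_ne_zero (U t)
  field_simp
  ring

/-- derivative in the second chart -/
lemma hasDerivWithinAt_PhiB {s : Set ℝ} {t : ℝ} (hU : HasDerivWithinAt U (U' t) s t)
    (hV : HasDerivWithinAt V (V' t) s t) (h1 : exp (U t) ∈ slitPlane)
    (hUV : V' t * exp (V t) = -(U' t * exp (U t))) (h : exp (U t) + exp (V t) = 1) :
    HasDerivWithinAt (fun t => PhiB (U t) (V t)) (V t * U' t) s t := by
  have hz : HasDerivWithinAt (fun t => exp (U t)) (exp (U t) * U' t) s t := hU.cexp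
  have hV0 : exp (V t) = 1 - exp (U t) := by linear_combination h
  have hne : 1 - exp (U t) ≠ 0 := by
    rw [← hV0]
    exact exp_ne_zero _
  have h3 : HasDerivWithinAt (fun t => Li2 (1 - exp (U t)))
      (-(log (1 - (1 - exp (U t)))) / (1 - exp (U t)) * (-(exp (U t) * U' t))) s t :=
    HasDerivAt.comp_hasDerivWithinAt (h₂ := Li2) t (hasDerivAt_Li2 (by rw [sub_sub_cancel]; exact h1) hne)
      (hz.const_sub 1)
  have h4 : HasDerivWithinAt (fun t => log (exp (U t))) (exp (U t) * U' t / exp (U t)) s t :=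
    hz.clog_real h1
  have h5 := (((hU.mul hV).add h3).sub ((hU.sub h4).mul hV)).sub_const ((Real.pi : ℂ) ^ 2 / 6)
  refine h5.congr_deriv ?_
  rw [sub_sub_cancel]
  have h6 : V' t = -(exp (U t) * U' t) / (1 - exp (U t)) := by
    rw [eq_div_iff hne, ← hV0]
    linear_combination hUV
  simp only [Pi.sub_apply]
  rw [h6]
  have := exp_ne_zero (U t)
  field_simp
  ring

/-- **Steinberg lemma** -/
theorem steinberg (hU : ∀ t ∈ Icc (0 : ℝ) 1, HasDerivWithinAt U (U' t) (Icc 0 1) t)
    (hV : ∀ t ∈ Icc (0 : ℝ) 1, HasDerivWithinAt V (V' t) (Icc 0 1) t)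
    (hU' : ContinuousOn U' (Icc 0 1)) (h : ∀ t ∈ Icc (0 : ℝ) 1, exp (U t) + exp (V t) = 1) :
    exp ((∫ t in (0 : ℝ)..1, V t * U' t) / (2 * Real.pi * I)) * StE (U 0) (V 0) = StE (U 1) (V 1) := by
  have hUc : ContinuousOn U (Icc 0 1) := fun t ht => (hU t ht).continuousWithinAt
  have hVc : ContinuousOn V (Icc 0 1) := fun t ht => (hV t ht).continuousWithinAt
  have hf : ContinuousOn (fun t => V t * U' t) (Icc 0 1) := hVc.mul hU'
  have hUV : ∀ t ∈ Icc (0 : ℝ) 1, V' t * exp (V t) = -(U' t * exp (U t)) := by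
    intro t ht
    have h1 := ((hU t ht).cexp).add ((hV t ht).cexp)
    have h2 : HasDerivWithinAt (fun t => exp (U t) + exp (V t)) 0 (Icc 0 1) t := by
      refine (hasDerivWithinAt_const t (Icc (0 : ℝ) 1) (1 : ℂ)).congr (fun s hs => h s hs) (h t ht)
    have h3 := (uniqueDiffOn_Icc zero_lt_one t ht).eq_deriv _ h1 h2
    linear_combination h3
  set F : ℝ → ℂ := fun t => ∫ s in (0 : ℝ)..t, V s * U' s with hF
  have hFd : ∀ t ∈ Icc (0 : ℝ) 1, HasDerivWithinAt F (V t * U' t) (Icc 0 1) t := by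
    intro t ht
    have : Fact (t ∈ Icc (0 : ℝ) 1) := ⟨ht⟩
    refine integral_hasDerivWithinAt_right (s := Icc 0 1) (t := Icc 0 1) ?_ ?_ (hf t ht)
    · refine ContinuousOn.intervalIntegrable (hf.mono ?_)
      rw [uIcc_of_le ht.1]
      exact Icc_subset_Icc_right ht.2
    · exact hf.stronglyMeasurableAtFilter_nhdsWithin measurableSet_Icc t
  set W : ℝ → ℂ := fun t => exp (-(F t) / (2 * Real.pi * I)) * StE (U t) (V t) with hW
  have hWd : ∀ t ∈ Icc (0 : ℝ) 1, HasDerivWithinAt W 0 (Icc 0 1) t := by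
    intro t ht
    rcases slit_or (U t) with h1 | h1
    · have h2 := (((hFd t ht).neg.div_const (2 * Real.pi * I)).cexp).mul
        (((hasDerivWithinAt_PhiA (hU t ht) (hV t ht) h1 (hUV t ht) (h t ht)).div_const (2 * Real.pi * I)).cexp)
      have h3 : ∀ᶠ s in 𝓝[Icc 0 1] t, W s =
          exp (-(F s) / (2 * Real.pi * I)) * exp (PhiA (U s) (V s) / (2 * Real.pi * I)) := by
        have h4 : ContinuousWithinAt (fun s => 1 - exp (U s)) (Icc 0 1) t :=
          ((hUc t ht).cexp).const_sub 1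
        filter_upwards [h4.eventually (isOpen_slitPlane.mem_nhds h1)] with s hs
        rw [hW]
        simp only
        rw [StE_of_left hs]
      refine (h2.congr_deriv ?_).congr_of_eventuallyEq h3
        (by rw [hW]; simp only [Pi.mul_apply, Pi.neg_apply]; rw [StE_of_left h1])
      simp only [Pi.neg_apply]
      ring
    · have h2 := (((hFd t ht).neg.div_const (2 * Real.pi * I)).cexp).mul
        (((hasDerivWithinAt_PhiB (hU t ht) (hV t ht) h1 (hUV t ht) (h t ht)).div_const (2 * Real.pi * I)).cexp)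
      have h3 : ∀ᶠ s in 𝓝[Icc 0 1] t, W s =
          exp (-(F s) / (2 * Real.pi * I)) * exp (PhiB (U s) (V s) / (2 * Real.pi * I)) := by
        have h4 : ContinuousWithinAt (fun s => exp (U s)) (Icc 0 1) t := (hUc t ht).cexp
        filter_upwards [h4.eventually (isOpen_slitPlane.mem_nhds h1), self_mem_nhdsWithin] with s hs hs2
        rw [hW]
        simp only
        rw [StE_of_right (h s hs2) hs]
      refine (h2.congr_deriv ?_).congr_of_eventuallyEq h3
        (by rw [hW]; simp only [Pi.mul_apply, Pi.neg_apply]; rw [StE_of_right (h t ht) h1])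
      simp only [Pi.neg_apply]
      ring
  have hconst : W 1 = W 0 := by
    refine constant_of_derivWithin_zero (fun t ht => (hWd t ht).differentiableWithinAt) ?_ 1 ⟨zero_le_one, le_rfl⟩
    intro t ht
    exact (hWd t ⟨ht.1, ht.2.le⟩).derivWithin (uniqueDiffOn_Icc zero_lt_one t ⟨ht.1, ht.2.le⟩)
  have hF0 : F 0 = 0 := by
    rw [hF]
    simp
  rw [hW] at hconst
  simp only [hF0, neg_zero, zero_div, exp_zero, one_mul] at hconst
  have e : F 1 = ∫ t in (0 : ℝ)..1, V t * U' t := rfl
  rw [← e, ← hconst, ← mul_assoc, ← exp_add]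
  have e2 : F 1 / (2 * Real.pi * I) + -F 1 / (2 * Real.pi * I) = 0 := by ring
  rw [e2, exp_zero, one_mul]

end Dilog
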